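import Mathlib
import Pool.Agent.Helper941.Dim.Final

set_option autoImplicit false

/-!
For every `n ≥ 2` there is a computable structure of computable dimension two which is
`Δ⁰_{n+1}`-autostable but not `Δ⁰_n`-autostable.

The definitions are in `Pool/Agent/Helper941/Dim/Defs.lean`: `Str` (structures with universe `ℕ`
and binary relations `R_0, R_1, …`), `IsComp`, `IsIso`, `IsCopy` (computable copies), `CompIso`
(computable isomorphism), `compDim` (the number of computable copies up to computable isomorphism),
`Sig`, `Del`, `DeltaFun` (the arithmetical hierarchy) and `DeltaAutostable`.
-/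

namespace Pool.Agent.Results.MP_e296b6_lc.DimensionTwo

open Pool.Agent.Helper941.Dim

/-- For every `n ≥ 2` there is a computable structure `A` such that the number of computable copies
of `A` up to computable isomorphism is two, any two computable copies of `A` are isomorphic by a
`Δ⁰_{n+1}` isomorphism, and some two computable copies of `A` are not isomorphic by any `Δ⁰_n`
isomorphism. -/
theorem result (n : ℕ) (hn : 2 ≤ n) : ∃ A : Str, IsComp A ∧ compDim A = 2 ∧
    DeltaAutostable (n + 1) A ∧ ¬ DeltaAutostable n A :=
  main n hn

end Pool.Agent.Results.MP_e296b6_lc.DimensionTwo
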